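import Pool.Agent.Helper20.KP.StHB

/-! Project KP (MP_26be5b_ag, owners helper52, helper20), module HB2: charts of the orbit. -/

set_option autoImplicit false

namespace Pool.Agent.Helper7.KP

open MeasureTheory Filter Pool.Agent.Helper52.KP Pool.Agent.Helper67.NO Pool.Agent.Helper20.KP
open scoped Topology

universe u

section
variable {g : Type u} [LieRing g] [LieAlgebra ℂ g] [FiniteDimensional ℂ g]

private lemma co_eq (x : g) : co x = (Module.finBasis ℂ g).equivFun x := by
  ext i
  rw [Module.Basis.equivFun_apply]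
  rfl

private lemma symm_co (x : g) : (Module.finBasis ℂ g).equivFun.symm (co x) = x := by
  rw [co_eq, LinearEquiv.symm_apply_apply]

private lemma co_inj {x y : g} (h : co x = co y) : x = y := by
  rw [← symm_co x, h, symm_co]

private lemma size_sub (x y : g) : size (y - x) = ∑ i, ‖co y i - co x i‖ := by
  unfold size
  refine Finset.sum_congr rfl fun i _ => ?_
  rw [map_sub, Finsupp.sub_apply]
  rfl

private lemma rk_zero : rk (0 : g) = 0 := by
  unfold rk
  have h : (LieAlgebra.ad ℂ g (0 : g) : g →ₗ[ℂ] g) = 0 := by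
    ext y
    simp
  rw [h, LinearMap.range_zero, finrank_bot]

end

theorem hHB2 (hORB : StORB.{u}) (hNEA : StNEA.{u}) : StHB2.{u} := by
  intro g _ _ _ _ x₀ hx₀ hnil C
  obtain ⟨-, -, hsym, hchart, -, hfrm, -⟩ := hORB g
  have hrkx : ∀ x, Orb x₀ x → rk x = C.m := fun x hx => by
    rw [C.hrk]
    exact (hsym x₀ x hx).2.1
  have hx0 : ∀ x, Orb x₀ x → x ≠ 0 := by
    rintro x hx rfl
    have h1 := hrkx 0 hx
    have h2 := C.hm
    have h3 := C.hn
    rw [rk_zero] at h1
    omega
  refine ⟨fun x hx => ?_, fun x hx X hX => ?_⟩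
  · have h := hfrm x
    rw [hrkx x hx] at h
    exact h
  · obtain ⟨hol, hz, hder⟩ := hchart C.m x X
    have hdif : Differentiable ℂ (fun w => co (chart x X w)) := differentiableOn_univ.1 hol
    refine ⟨hdif, ?_, fun s => ⟨chart x X s, Orb.step _ _ hx, rfl⟩, ?_, ?_⟩
    · show co (chart x X 0) = co x
      rw [hz]
    · intro v v' h
      have h1 : co ⁅∑ j, v j • X j, x⁆ = co ⁅∑ j, v' j • X j, x⁆ :=
        (hder v).symm.trans (h.trans (hder v'))
      have h2 := co_inj h1
      rw [sum_lie, sum_lie] at h2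
      simp only [smul_lie] at h2
      have h3 : ∑ j, (v j - v' j) • ⁅X j, x⁆ = 0 := by
        simp only [sub_smul, Finset.sum_sub_distrib]
        rw [h2, sub_self]
      funext j
      exact sub_eq_zero.1 (Fintype.linearIndependent_iff.1 hX.li _ h3 j)
    · intro ε hε
      obtain ⟨W, δ₀, ε₀, hδ₀, hε₀, hW, hW1, hW2⟩ :=
        hNEA g x (hx0 x hx) ((hsym x₀ x hx).2.2 hnil) C.m X hX
      set V : Set (Fin (Module.finrank ℂ g) → ℂ) := {v | ∑ i, ‖v i - co x i‖ < δ₀} with hV
      have hVo : IsOpen V := by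
        have hc : Continuous fun v : Fin (Module.finrank ℂ g) → ℂ => ∑ i, ‖v i - co x i‖ := by
          fun_prop
        exact isOpen_Iio.preimage hc
      have hxV : co x ∈ V := by
        rw [hV]
        show ∑ i, ‖co x i - co x i‖ < δ₀
        simpa using hδ₀
      have hWx : W x = 0 := by
        have h1 := (hW2 0 (by simpa using hε₀)).2
        rwa [hz] at h1
      have hcont : ContinuousAt (fun v => W ((Module.finBasis ℂ g).equivFun.symm v)) (co x) :=
        (hW.differentiableAt (hVo.mem_nhds hxV)).continuousAt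
      obtain ⟨δ₁, hδ₁, h1⟩ := Metric.continuousAt_iff.1 hcont ε hε
      obtain ⟨δ₂, hδ₂, h2⟩ := Metric.isOpen_iff.1 hVo (co x) hxV
      refine ⟨min δ₁ δ₂, lt_min hδ₁ hδ₂, ?_⟩
      rintro x' ⟨y, hy, rfl⟩ hlt
      have hd : dist (co y) (co x) < min δ₁ δ₂ := by
        rw [dist_eq_norm]
        exact hlt
      have h3 : co y ∈ V := h2 (lt_of_lt_of_le hd (min_le_right _ _))
      have h4 : size (y - x) < δ₀ := by
        rw [size_sub]
        exact h3
      have hyo := hsym x₀ y hy
      have h5 := hW1 y h4 (hyo.2.2 hnil) ((hrkx y hy).trans (hrkx x hx).symm)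
      have h6 := h1 (lt_of_lt_of_le hd (min_le_left _ _))
      simp only [symm_co, hWx, dist_zero_right] at h6
      exact ⟨W y, h6, congrArg co h5⟩

end Pool.Agent.Helper7.KP
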