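import Pool.Agent.Helper52.KP.StM

/-! Project KP (MP_26be5b_ag, owner helper52), module ADP: orthonormal adapted bases. -/

set_option autoImplicit false

namespace Pool.Agent.Helper7.KP

open MeasureTheory Filter Pool.Agent.Helper52.KP
open scoped ContDiff ComplexOrder Topology

/-- orthonormal families adapted to a decreasing filtration -/
private lemma filt_onb {E : Type} [NormedAddCommGroup E] [InnerProductSpace ℂ E]
    [FiniteDimensional ℂ E] (G : ℕ → Submodule ℂ E) (hanti : Antitone G) (L : ℕ)
    (hL : G (L + 1) = ⊥) :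
    ∀ d, d ≤ L + 1 → ∃ (ι : Type) (_ : Fintype ι) (s : ι → E) (lam : ι → ℕ), Orthonormal ℂ s ∧
      (∀ j, L + 1 - d ≤ lam j ∧ lam j ≤ L) ∧
      ∀ l, L + 1 - d ≤ l → G l = Submodule.span ℂ (s '' {j | l ≤ lam j}) := by
  intro d
  induction d with
  | zero =>
    intro _
    refine ⟨Fin 0, inferInstance, Fin.elim0, Fin.elim0, ?_, fun j => j.elim0, ?_⟩
    · rw [orthonormal_iff_ite]
      exact fun i => i.elim0
    · intro l hl
      have h1 : G l ≤ ⊥ := hL ▸ hanti (by omega : L + 1 ≤ l)
      have h2 : (Fin.elim0 : Fin 0 → E) '' {j | l ≤ (Fin.elim0 j : ℕ)} = ∅ := by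
        ext x
        simp only [Set.mem_image, Set.mem_empty_iff_false, iff_false]
        rintro ⟨i, _⟩
        exact i.elim0
      rw [h2, Submodule.span_empty]
      exact le_bot_iff.1 h1
  | succ d ih =>
    intro hd
    obtain ⟨ι, hι, s, lam, hs, hlam, hG⟩ := ih (by omega)
    obtain ⟨a, ha⟩ : ∃ a, L + 1 - d = a + 1 := ⟨L + 1 - (d + 1), by omega⟩
    have ha' : L + 1 - (d + 1) = a := by omega
    rw [ha] at hlam hG
    rw [ha']
    set H : Submodule ℂ E := (G (a + 1))ᗮ ⊓ G a with hH
    set b := stdOrthonormalBasis ℂ H with hb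
    have hsG : ∀ i, s i ∈ G (a + 1) := fun i => by
      rw [hG (a + 1) le_rfl]
      exact Submodule.subset_span ⟨i, (hlam i).1, rfl⟩
    have hso : ∀ i j, inner ℂ (s i) ((b j : H) : E) = 0 := fun i j =>
      Submodule.inner_right_of_mem_orthogonal (hsG i) (b j).2.1
    have hos : ∀ i j, inner ℂ ((b j : H) : E) (s i) = 0 := fun i j =>
      Submodule.inner_left_of_mem_orthogonal (hsG i) (b j).2.1
    have hHs : Submodule.span ℂ (Set.range fun i => ((b i : H) : E)) = H := by
      have h1 : Submodule.span ℂ (Set.range b) = ⊤ := by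
        rw [← b.coe_toBasis]
        exact b.toBasis.span_eq
      have h2 : (Set.range fun i => ((b i : H) : E)) = H.subtype '' Set.range b := by
        ext x
        simp
      rw [h2, ← Submodule.map_span, h1, Submodule.map_subtype_top]
    refine ⟨ι ⊕ Fin (Module.finrank ℂ H), inferInstance, Sum.elim s fun i => ((b i : H) : E),
      Sum.elim lam fun _ => a, ?_, ?_, ?_⟩
    · classical
      rw [orthonormal_iff_ite] at hs ⊢
      have hbo := orthonormal_iff_ite.1 b.orthonormal
      rintro (i | i) (j | j)
      · simpa using hs i j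
      · simpa using hso i j
      · simpa using hos j i
      · have := hbo i j
        rw [Submodule.coe_inner] at this
        simpa using this
    · rintro (j | j)
      · have := hlam j
        simp only [Sum.elim_inl]
        omega
      · simp only [Sum.elim_inr]
        omega
    · intro l hl
      rcases hl.eq_or_lt with rfl | hlt
      · have h1 : (Sum.elim s fun i => ((b i : H) : E)) ''
            {j | a ≤ Sum.elim lam (fun _ => a) j} =
            s '' {j | a + 1 ≤ lam j} ∪ Set.range fun i => ((b i : H) : E) := by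
          ext x
          constructor
          · rintro ⟨j | j, hj, rfl⟩
            · exact Or.inl ⟨j, (hlam j).1, rfl⟩
            · exact Or.inr ⟨j, rfl⟩
          · rintro (⟨j, hj, rfl⟩ | ⟨j, rfl⟩)
            · refine ⟨Sum.inl j, ?_, rfl⟩
              have := (hlam j).1
              simp only [Set.mem_setOf_eq, Sum.elim_inl]
              omega
            · exact ⟨Sum.inr j, by simp, rfl⟩
        rw [h1, Submodule.span_union, ← hG (a + 1) le_rfl, hHs, hH]
        exact (Submodule.sup_orthogonal_inf_of_hasOrthogonalProjection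
          (hanti (Nat.le_succ a))).symm
      · have h1 : (Sum.elim s fun i => ((b i : H) : E)) ''
            {j | l ≤ Sum.elim lam (fun _ => a) j} = s '' {j | l ≤ lam j} := by
          ext x
          constructor
          · rintro ⟨j | j, hj, rfl⟩
            · exact ⟨j, hj, rfl⟩
            · simp only [Set.mem_setOf_eq, Sum.elim_inr] at hj
              omega
          · rintro ⟨j, hj, rfl⟩
            exact ⟨Sum.inl j, hj, rfl⟩
        rw [h1]
        exact hG l hlt

section
variable {C : Cone} (hC : Good C)

include hC in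
private lemma isOpen_U : IsOpen C.U := by
  have h : Continuous fun z => ev C.Δ z := MvPolynomial.continuous_eval _
  have : C.U = (fun z => ev C.Δ z) ⁻¹' {0}ᶜ := by ext z; simp [Cone.U]
  rw [this]
  exact isOpen_compl_singleton.preimage h

include hC in
private lemma integrable_mul (hM : StMOM) {D : ℕ} (f g : C.R D) :
    IntegrableOn (fun z => ev (f : MvPolynomial (Fin C.m) ℂ) z * ev C.J z *
      star (ev (g : MvPolynomial (Fin C.m) ℂ) z * ev C.J z) * (Real.exp (-C.u z) : ℂ)) C.U := by
  have hf := (hM C hC).2.2.2 D f f.2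
  have hg := (hM C hC).2.2.2 D g g.2
  have hU := isOpen_U hC
  have hexp : AEStronglyMeasurable (fun z => (Real.exp (-C.u z) : ℂ))
      (volume.restrict C.U) := by
    have hc : ContinuousOn (fun z => (Real.exp (-C.u z) : ℂ)) C.U :=
      Complex.continuous_ofReal.comp_continuousOn
        (Real.continuous_exp.comp_continuousOn hC.usm.continuousOn.neg)
    exact hc.aestronglyMeasurable hU.measurableSet
  refine Integrable.mono' ((hf.2.add hg.2)) ?_ (Eventually.of_forall fun z => ?_)
  · exact (hf.1.mul (continuous_star.comp_aestronglyMeasurable hg.1)).mul hexp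
  · rw [norm_mul, norm_mul, norm_star, Complex.norm_real, Real.norm_eq_abs,
      abs_of_pos (Real.exp_pos _)]
    have h1 := Real.exp_pos (-C.u z)
    set x := ‖ev (f : MvPolynomial (Fin C.m) ℂ) z * ev C.J z‖
    set y := ‖ev (g : MvPolynomial (Fin C.m) ℂ) z * ev C.J z‖
    have h2 : x * y ≤ x ^ 2 + y ^ 2 := by nlinarith [sq_nonneg (x - y), sq_nonneg (x + y)]
    calc x * y * Real.exp (-C.u z) ≤ (x ^ 2 + y ^ 2) * Real.exp (-C.u z) :=
          mul_le_mul_of_nonneg_right h2 h1.le
      _ = _ := by simp only [Pi.add_apply]; ring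

include hC in
private lemma zero_of_inn (hM : StMOM) {D : ℕ} (f : C.R D)
    (h : inn C.U C.u (fun z => ev (f : MvPolynomial (Fin C.m) ℂ) z * ev C.J z)
      (fun z => ev (f : MvPolynomial (Fin C.m) ℂ) z * ev C.J z) = 0) : f = 0 := by
  have hf := (hM C hC).2.2.2 D f f.2
  have hU := isOpen_U hC
  have h1 : ∫ z in C.U, ‖ev (f : MvPolynomial (Fin C.m) ℂ) z * ev C.J z‖ ^ 2 *
      Real.exp (-C.u z) = 0 := by
    have h2 : inn C.U C.u (fun z => ev (f : MvPolynomial (Fin C.m) ℂ) z * ev C.J z)
      (fun z => ev (f : MvPolynomial (Fin C.m) ℂ) z * ev C.J z) =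
        ((∫ z in C.U, ‖ev (f : MvPolynomial (Fin C.m) ℂ) z * ev C.J z‖ ^ 2 *
          Real.exp (-C.u z) : ℝ) : ℂ) := by
      unfold inn
      rw [← integral_complex_ofReal]
      refine integral_congr_ae (Eventually.of_forall fun z => ?_)
      simp only
      rw [Complex.star_def, Complex.mul_conj, Complex.normSq_eq_norm_sq]
      push_cast
      ring
    rw [h2] at h
    exact_mod_cast h
  rw [integral_eq_zero_iff_of_nonneg (fun z => by positivity) hf.2] at h1
  have h3 : (fun z => ev (f : MvPolynomial (Fin C.m) ℂ) z * ev C.J z)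
      =ᵐ[volume.restrict C.U] fun _ => 0 := by
    filter_upwards [h1] with z hz
    simp only [Pi.zero_apply, mul_eq_zero, (Real.exp_pos _).ne', or_false] at hz
    have := pow_eq_zero_iff (two_ne_zero) |>.1 hz
    exact norm_eq_zero.1 this
  have h4 := Measure.eqOn_open_of_ae_eq h3 hU
    (((MvPolynomial.continuous_eval _).mul (MvPolynomial.continuous_eval _)).continuousOn)
    continuousOn_const
  have h5 : (f : MvPolynomial (Fin C.m) ℂ) * C.Δ = 0 := by
    refine MvPolynomial.funext fun z => ?_
    rw [map_mul, map_zero]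
    by_cases hz : z ∈ C.U
    · have h6 := h4 hz
      simp only [mul_eq_zero] at h6
      rcases h6 with h6 | h6
      · have h7 : (MvPolynomial.eval z) (f : MvPolynomial (Fin C.m) ℂ) = 0 := h6
        rw [h7, zero_mul]
      · exact absurd h6 (hC.J0 z hz)
    · have h8 : (MvPolynomial.eval z) C.Δ = 0 := by
        by_contra h9
        exact hz h9
      rw [h8, mul_zero]
  rcases mul_eq_zero.1 h5 with h6 | h6
  · exact Subtype.ext h6
  · exact absurd h6 hC.Δ0

/-- the inner product on `R D` -/
private noncomputable def core (hM : StMOM) (D : ℕ) : InnerProductSpace.Core ℂ (C.R D) where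
  inner f g := inn C.U C.u (fun z => ev (g : MvPolynomial (Fin C.m) ℂ) z * ev C.J z)
    (fun z => ev (f : MvPolynomial (Fin C.m) ℂ) z * ev C.J z)
  conj_inner_symm f g := by
    unfold inn
    rw [← integral_conj]
    refine integral_congr_ae (Eventually.of_forall fun z => ?_)
    simp only [map_mul, Complex.star_def, Complex.conj_conj, Complex.conj_ofReal]
    ring
  re_inner_nonneg f := by
    unfold inn
    have h2 : (∫ z in C.U, ev (f : MvPolynomial (Fin C.m) ℂ) z * ev C.J z *
        star (ev (f : MvPolynomial (Fin C.m) ℂ) z * ev C.J z) * (Real.exp (-C.u z) : ℂ)) =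
        ((∫ z in C.U, ‖ev (f : MvPolynomial (Fin C.m) ℂ) z * ev C.J z‖ ^ 2 *
          Real.exp (-C.u z) : ℝ) : ℂ) := by
      rw [← integral_complex_ofReal]
      refine integral_congr_ae (Eventually.of_forall fun z => ?_)
      simp only
      rw [Complex.star_def, Complex.mul_conj, Complex.normSq_eq_norm_sq]
      push_cast
      ring
    rw [h2]
    simp only [RCLike.re_to_complex, Complex.ofReal_re]
    exact integral_nonneg fun z => by positivity
  add_left f g h := by
    unfold inn
    rw [← integral_add (integrable_mul hC hM h f) (integrable_mul hC hM h g)]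
    refine integral_congr_ae (Eventually.of_forall fun z => ?_)
    simp only [Submodule.coe_add, map_add, Complex.star_def, map_mul]
    ring
  smul_left f g c := by
    unfold inn
    rw [← integral_const_mul]
    refine integral_congr_ae (Eventually.of_forall fun z => ?_)
    simp only [Submodule.coe_smul, MvPolynomial.smul_eval, Complex.star_def, map_mul]
    ring
  definite f h := zero_of_inn hC hM f h

include hC in
private lemma exists_onb (hM : StMOM) (D : ℕ) (G : ℕ → Submodule ℂ (C.R D)) (hanti : Antitone G)
    (L : ℕ) (hL : G (L + 1) = ⊥) :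
    ∃ (ι : Type) (_ : Fintype ι) (s : ι → C.R D) (lam : ι → ℕ), LinearIndependent ℂ s ∧
      (∀ i j, i = j → inn C.U C.u (fun z => ev (s i : MvPolynomial (Fin C.m) ℂ) z * ev C.J z)
        (fun z => ev (s j : MvPolynomial (Fin C.m) ℂ) z * ev C.J z) = 1) ∧
      (∀ i j, i ≠ j → inn C.U C.u (fun z => ev (s i : MvPolynomial (Fin C.m) ℂ) z * ev C.J z)
        (fun z => ev (s j : MvPolynomial (Fin C.m) ℂ) z * ev C.J z) = 0) ∧
      (∀ j, lam j ≤ L) ∧ ∀ l, G l = Submodule.span ℂ (s '' {j | l ≤ lam j}) := by
  classical
  letI cd := core hC hM D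
  letI i1 : NormedAddCommGroup (C.R D) := cd.toNormedAddCommGroup
  letI i2 : InnerProductSpace ℂ (C.R D) := InnerProductSpace.ofCore cd.toCore
  haveI : FiniteDimensional ℂ (C.R D) := hC.fd D
  obtain ⟨ι, hι, s, lam, hs, hlam, hG⟩ := filt_onb G hanti L hL (L + 1) le_rfl
  have hs' := orthonormal_iff_ite.1 hs
  refine ⟨ι, hι, s, lam, hs.linearIndependent, ?_, ?_, fun j => (hlam j).2, fun l => hG l (by omega)⟩
  · rintro i j rfl
    have := hs' i i
    rw [if_pos rfl] at this
    exact this
  · intro i j hij
    have := hs' j i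
    rw [if_neg (Ne.symm hij)] at this
    exact this

end

theorem hADP (hM : Pool.Agent.Helper52.KP.StMOM) : Pool.Agent.Helper52.KP.StADP := by
  intro C hC r F hF
  classical
  obtain ⟨Λ, hΛ⟩ := hF.sep
  have hanti : ∀ k, Antitone (F k) := fun k => antitone_nat_of_succ_le (hF.anti k)
  have hvan : ∀ k l, Λ * k < l → F k l = ⊥ := by
    intro k
    induction k with
    | zero =>
      intro l hl
      have h1 : F 0 l ≤ F 0 1 := hanti 0 (by omega)
      rw [hF.sep0] at h1
      exact le_bot_iff.1 h1
    | succ k ih =>
      intro l hl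
      rcases Nat.eq_zero_or_pos k with rfl | hk
      · have h1 : F 1 l ≤ F 1 Λ := hanti 1 (by omega)
        rw [hΛ] at h1
        exact le_bot_iff.1 h1
      · rw [hF.gen k l hk, ← le_bot_iff, Submodule.span_le]
        rintro b ⟨i, j, f, f', hij, hf, hf', rfl⟩
        have hcase : Λ * k < i ∨ Λ < j := by
          by_contra hcon
          rw [not_or, not_lt, not_lt] at hcon
          have : Λ * (k + 1) = Λ * k + Λ := by ring
          omega
        rcases hcase with h | h
        · rw [ih i h] at hf
          have : f = 0 := by simpa using hf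
          simp [this]
        · have h1 : F 1 j ≤ F 1 Λ := hanti 1 h.le
          rw [hΛ] at h1
          have : f' = 0 := by simpa using h1 hf'
          simp [this]
  refine ⟨Λ, fun k => ⟨hvan k, ?_⟩⟩
  set D : ℕ := C.n * r * k with hD
  have hle : ∀ l, F k l ≤ C.R D := fun l => by
    rw [← hF.zero k]
    exact hanti k (Nat.zero_le l)
  set G : ℕ → Submodule ℂ (C.R D) := fun l => (F k l).comap (C.R D).subtype with hG
  have hGF : ∀ l, (G l).map (C.R D).subtype = F k l := fun l => by
    rw [hG]
    simp only
    rw [Submodule.map_comap_subtype]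
    exact inf_eq_right.2 (hle l)
  have hGanti : Antitone G := fun a b hab => Submodule.comap_mono (hanti k hab)
  have hGL : G (Λ * k + 1) = ⊥ := by
    rw [hG]
    simp only
    rw [hvan k _ (Nat.lt_succ_self _), Submodule.comap_bot]
    exact Submodule.ker_subtype _
  obtain ⟨ι, hι, s0, lam0, hli, hon1, hon0, hlam, hsp⟩ := exists_onb hC hM D G hGanti (Λ * k) hGL
  have hfd : FiniteDimensional ℂ (C.R D) := hC.fd D
  set e := (Fintype.equivFin ι).symm with he
  set N := Fintype.card ι with hN
  set s : Fin N → MvPolynomial (Fin C.m) ℂ := fun i => (s0 (e i) : MvPolynomial (Fin C.m) ℂ)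
    with hs
  set lam : Fin N → ℕ := fun i => lam0 (e i) with hlamdef
  have hlis : LinearIndependent ℂ s := by
    have h1 : LinearIndependent ℂ (fun i => ((s0 i : C.R D) : MvPolynomial (Fin C.m) ℂ)) :=
      hli.map' (C.R D).subtype (Submodule.ker_subtype _)
    exact h1.comp e e.injective
  have hspan : ∀ l, F k l = Submodule.span ℂ (s '' {j | l ≤ lam j}) := by
    intro l
    rw [← hGF l, hsp l, Submodule.map_span]
    congr 1
    ext x
    constructor
    · rintro ⟨y, ⟨j, hj, rfl⟩, rfl⟩
      refine ⟨e.symm j, ?_, ?_⟩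
      · simpa [hlamdef] using hj
      · simp [hs]
    · rintro ⟨j, hj, rfl⟩
      exact ⟨s0 (e j), ⟨e j, hj, rfl⟩, rfl⟩
  have hrange : Submodule.span ℂ (Set.range s) = C.R D := by
    rw [← hF.zero k, hspan 0]
    congr 1
    ext x
    simp
  refine ⟨N, s, lam, ⟨hlis, hspan⟩, ⟨hrange, ?_⟩, fun j => hlam _, ?_, ?_⟩
  · intro i j
    by_cases hij : i = j
    · rw [if_pos hij]
      exact hon1 _ _ (congrArg e hij)
    · rw [if_neg hij]
      exact hon0 _ _ fun h => hij (e.injective h)
  · rw [← hrange, finrank_span_eq_card hlis, Fintype.card_fin]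
  · have hfr : ∀ l, Module.finrank ℂ (F k l) = (Finset.univ.filter fun j => l ≤ lam j).card := by
      intro l
      rw [hspan l]
      have h1 : s '' {j | l ≤ lam j} = Set.range fun j : {j // l ≤ lam j} => s j := by
        ext x
        simp
      have h2 : LinearIndependent ℂ fun j : {j // l ≤ lam j} => s j :=
        hlis.comp _ Subtype.val_injective
      rw [h1, finrank_span_eq_card h2, Fintype.card_subtype]
    unfold wF
    rw [finsum_eq_sum_of_support_subset (s := Finset.range (Λ * k))]
    · simp_rw [hfr]
      have h2 : ∀ j, (lam j : ℝ) = ∑ l ∈ Finset.range (Λ * k), if l + 1 ≤ lam j then (1 : ℝ) else 0 := by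
        intro j
        rw [← Finset.sum_filter, Finset.sum_const, nsmul_eq_mul, mul_one]
        have h3 : (Finset.range (Λ * k)).filter (fun l => l + 1 ≤ lam j) =
            Finset.range (lam j) := by
          ext l
          have := hlam (e j)
          simp only [Finset.mem_filter, Finset.mem_range, hlamdef]
          omega
        rw [h3, Finset.card_range]
      simp_rw [h2]
      rw [Finset.sum_comm]
      refine Finset.sum_congr rfl fun l _ => ?_
      rw [← Finset.sum_filter, Finset.sum_const, nsmul_eq_mul, mul_one]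
    · intro l hl
      rw [Function.mem_support] at hl
      rw [Finset.coe_range, Set.mem_Iio]
      by_contra hcon
      rw [not_lt] at hcon
      apply hl
      rw [hvan k (l + 1) (by omega)]
      simp

end Pool.Agent.Helper7.KP
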