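import Pool.Agent.Helper85.KP.StE

/-! Project KP (MP_26be5b_ag, owners helper52, helper85), module EFI: the final limit. -/

set_option autoImplicit false

namespace Pool.Agent.Helper7.KP

open MeasureTheory Filter Pool.Agent.Helper52.KP Pool.Agent.Helper85.KP
open scoped ContDiff ComplexOrder Topology

section
variable {C : Cone}

private lemma open_U : IsOpen C.U := by
  have h : Continuous fun z => ev C.Δ z := MvPolynomial.continuous_eval _
  have : C.U = (fun z => ev C.Δ z) ⁻¹' {0}ᶜ := by ext z; simp [Cone.U]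
  rw [this]
  exact isOpen_compl_singleton.preimage h

private lemma u_pos (hC : Good C) {z : Fin C.m → ℂ} (hz : z ∈ C.U) : 0 < C.u z := by
  obtain ⟨a, b, ha, h⟩ := hC.ubd
  exact (mul_pos ha (hC.Xpos z hz)).trans_le (h z hz).1

/-- `u` extended by zero -/
private noncomputable def ut (C : Cone) : (Fin C.m → ℂ) → ℝ := C.U.indicator C.u

private lemma ut_eq {z : Fin C.m → ℂ} (hz : z ∈ C.U) : ut C z = C.u z :=
  Set.indicator_of_mem hz _

private lemma meas_ut (hC : Good C) : Measurable (ut C) := by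
  classical
  have h := ContinuousOn.measurable_piecewise (s := C.U) (f := C.u) (g := fun _ => (0 : ℝ))
    hC.usm.continuousOn continuousOn_const open_U.measurableSet
  have e : C.U.piecewise C.u (fun _ => (0 : ℝ)) = ut C := by
    ext z
    by_cases hz : z ∈ C.U
    · rw [Set.piecewise_eq_of_mem _ _ _ hz, ut_eq hz]
    · rw [Set.piecewise_eq_of_notMem _ _ _ hz, ut, Set.indicator_of_notMem hz]
  rw [← e]
  exact h

private lemma meas_S1 (hC : Good C) : MeasurableSet (S1 C) := by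
  have e : S1 C = C.U ∩ ut C ⁻¹' Set.Iio 1 := by
    ext z
    constructor
    · rintro ⟨h1, h2⟩
      exact ⟨h1, by rw [Set.mem_preimage, ut_eq h1]; exact h2⟩
    · rintro ⟨h1, h2⟩
      rw [Set.mem_preimage, ut_eq h1] at h2
      exact ⟨h1, h2⟩
  rw [e]
  exact open_U.measurableSet.inter (meas_ut hC measurableSet_Iio)

private lemma aeS1 (hC : Good C) {p : (Fin C.m → ℂ) → Prop} (h : ∀ z ∈ C.U, p z) :
    ∀ᵐ z ∂C.nu.restrict (S1 C), p z :=
  (ae_restrict_iff' (meas_S1 hC)).2 (Eventually.of_forall fun z hz => h z hz.1)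

private noncomputable def VV (C : Cone) : ℝ := C.rd * (Real.pi / 2) ^ C.m / C.m.factorial

private lemma VV_pos (hC : Good C) : 0 < VV C := by
  have := hC.rd0
  unfold VV
  have h1 : (0 : ℝ) < C.rd := by exact_mod_cast this
  positivity

private lemma nu_S1 (hC : Good C) (hV : StVOL) : C.nu (S1 C) = ENNReal.ofReal (VV C) := hV C hC

private lemma real_S1 (hC : Good C) (hV : StVOL) : (C.nu.restrict (S1 C)).real Set.univ = VV C := by
  rw [Measure.real, Measure.restrict_apply_univ, nu_S1 hC hV,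
    ENNReal.toReal_ofReal (VV_pos hC).le]

private lemma int_bd (hC : Good C) (hV : StVOL) {x : (Fin C.m → ℂ) → ℝ} (hx : Measurable x)
    (B : ℝ) (h : ∀ z ∈ C.U, |x z| ≤ B) : Integrable x (C.nu.restrict (S1 C)) := by
  refine Measure.integrableOn_of_bounded (M := B) ?_ hx.aestronglyMeasurable ?_
  · rw [nu_S1 hC hV]
    exact ENNReal.ofReal_ne_top
  · exact aeS1 hC fun z hz => by rw [Real.norm_eq_abs]; exact h z hz

private lemma I1_const (hC : Good C) (hV : StVOL) (c : ℝ) : I1 C (fun _ => c) = c * VV C := by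
  unfold I1
  rw [integral_const, real_S1 hC hV, smul_eq_mul, mul_comm]

private lemma meas_ev (P : MvPolynomial (Fin C.m) ℂ) : Measurable fun z => ‖ev P z‖ ^ 2 :=
  ((MvPolynomial.continuous_eval P).norm.pow 2).measurable

private lemma meas_PP {N : ℕ} (s : Fin N → MvPolynomial (Fin C.m) ℂ) (lam : Fin N → ℕ) (t : ℝ) :
    Measurable (PP s lam t) := by
  unfold PP
  exact Finset.measurable_sum _ fun j _ => (meas_ev (s j)).const_mul _

private lemma meas_PPn {N : ℕ} (n : ℕ) (s : Fin N → MvPolynomial (Fin C.m) ℂ) (lam : Fin N → ℕ)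
    (t : ℝ) : Measurable (PPn n s lam t) := by
  unfold PPn
  exact Finset.measurable_sum _ fun j _ => (meas_ev (s j)).const_mul _

private lemma meas_F1 {N : ℕ} (s : Fin N → MvPolynomial (Fin C.m) ℂ) (lam : Fin N → ℕ) (t : ℝ) :
    Measurable (F1 s lam t) := by
  unfold F1
  exact (meas_PPn 1 s lam t).div (meas_PP s lam t)

private lemma meas_F2 {N : ℕ} (s : Fin N → MvPolynomial (Fin C.m) ℂ) (lam : Fin N → ℕ) (t : ℝ) :
    Measurable (F2 s lam t) := by
  unfold F2
  exact ((meas_PPn 2 s lam t).div (meas_PP s lam t)).sub ((meas_F1 s lam t).pow_const 2)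

private lemma berg_nonneg (D : ℕ) {N : ℕ} (s : Fin N → MvPolynomial (Fin C.m) ℂ)
    (z : Fin C.m → ℂ) : 0 ≤ C.berg D s z := by
  unfold Cone.berg
  have h : (0 : ℝ) ≤ C.u z ^ (2 * D) := by rw [pow_mul]; positivity
  positivity

private noncomputable def KK (C : Cone) (D : ℕ) : ℝ :=
  KD C D * C.m * (2 * D + C.m - 1).factorial

private lemma KK_nonneg (D : ℕ) : 0 ≤ KK C D := by
  unfold KK KD
  positivity

/-- integrals against `PP_0 e^{-u}` of uniformly bounded functions whose averages tend to zero -/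
private lemma small_int (hC : Good C) (hV : StVOL) (hERD : StERD) (hBER : StBER) {D N : ℕ → ℕ}
    (hD0 : ∀ i, 0 < D i) (hDt : Tendsto D atTop atTop)
    {s : ∀ i, Fin (N i) → MvPolynomial (Fin C.m) ℂ} {lam : ∀ i, Fin (N i) → ℕ}
    (hs : ∀ i, ONB C (D i) (s i)) (W : ℕ → (Fin C.m → ℂ) → ℝ) (B : ℝ)
    (hWm : ∀ i, Measurable (W i)) (hW : ∀ i, ∀ z ∈ C.U, 0 ≤ W i z ∧ W i z ≤ B)
    (hW0 : ∀ i, ∀ z ∈ C.U, ∀ c : ℂ, c ≠ 0 → W i (scl C.w c z) = W i z)
    (hlim : Tendsto (fun i => I1 C (W i)) atTop (𝓝 0)) {ε : ℝ} (hε : 0 < ε) :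
    ∀ᶠ i in atTop, ∫ z in C.U, PP (s i) (lam i) 0 z * W i z * Real.exp (-C.u z) *
      ‖ev C.J z‖ ^ 2 ≤ ε * N i := by
  have hVp := VV_pos hC
  set B' : ℝ := |B| + 1 with hB'
  have hB'0 : 0 < B' := by positivity
  have hBB' : B ≤ B' := by rw [hB']; linarith [le_abs_self B]
  obtain ⟨δ, hδ0, hδ1, hδ2⟩ : ∃ δ : ℝ, 0 < δ ∧ δ ≤ VV C / 2 ∧ B' * δ ≤ ε * VV C / 4 := by
    refine ⟨min (VV C / 2) (ε * VV C / (4 * B')), lt_min (by positivity) (by positivity),
      min_le_left _ _, ?_⟩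
    calc B' * min (VV C / 2) (ε * VV C / (4 * B')) ≤ B' * (ε * VV C / (4 * B')) :=
          mul_le_mul_of_nonneg_left (min_le_right _ _) hB'0.le
      _ = ε * VV C / 4 := by field_simp
  have h1 := hDt.eventually (hBER C hC δ hδ0)
  have h2 : ∀ᶠ i in atTop, I1 C (W i) < ε * VV C / 4 :=
    hlim.eventually (gt_mem_nhds (by positivity))
  filter_upwards [h1, h2] with i hi1 hi2
  have hb := hi1 (N i) (s i) (hs i)
  obtain ⟨e1, e2, e3⟩ := hERD C hC (D i) (N i) (hD0 i) (s i) (lam i) (hs i)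
  obtain ⟨-, e4, -⟩ := e3 (W i) B' (hWm i) (fun z hz => by
    rw [abs_of_nonneg (hW i z hz).1]; exact (hW i z hz).2.trans hBB') (hW0 i)
  rw [e4, e2]
  have hint : Integrable (C.berg (D i) (s i)) (C.nu.restrict (S1 C)) := e1
  have hconst : Integrable (fun _ : Fin C.m → ℂ => (1 : ℝ)) (C.nu.restrict (S1 C)) :=
    int_bd hC hV measurable_const 1 fun z _ => by simp
  have habs : Integrable (fun z => |C.berg (D i) (s i) z - 1|) (C.nu.restrict (S1 C)) :=
    (hint.sub hconst).abs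
  have hbδ : ∫ z in S1 C, |C.berg (D i) (s i) z - 1| ∂C.nu ≤ δ := by
    rw [integral_eq_lintegral_of_nonneg_ae (Eventually.of_forall fun z => abs_nonneg _) habs.1]
    exact ENNReal.toReal_le_of_le_ofReal hδ0.le hb
  have hWi : Integrable (W i) (C.nu.restrict (S1 C)) :=
    int_bd hC hV (hWm i) B' fun z hz => by
      rw [abs_of_nonneg (hW i z hz).1]; exact (hW i z hz).2.trans hBB'
  have h3 : I1 C (fun z => W i z * C.berg (D i) (s i) z) ≤ ε * VV C / 2 := by
    unfold I1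
    have h4 : ∫ z in S1 C, W i z * C.berg (D i) (s i) z ∂C.nu ≤
        ∫ z in S1 C, (W i z + B' * |C.berg (D i) (s i) z - 1|) ∂C.nu := by
      refine integral_mono_of_nonneg
        (aeS1 hC fun z hz => mul_nonneg (hW i z hz).1 (berg_nonneg _ _ _))
        (hWi.add (habs.const_mul B')) (aeS1 hC fun z hz => ?_)
      have h5 : W i z * (C.berg (D i) (s i) z - 1) ≤ B' * |C.berg (D i) (s i) z - 1| := by
        calc W i z * (C.berg (D i) (s i) z - 1) ≤ W i z * |C.berg (D i) (s i) z - 1| :=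
              mul_le_mul_of_nonneg_left (le_abs_self _) (hW i z hz).1
          _ ≤ B' * |C.berg (D i) (s i) z - 1| :=
              mul_le_mul_of_nonneg_right ((hW i z hz).2.trans hBB') (abs_nonneg _)
      simp only
      linarith
    rw [integral_add hWi (habs.const_mul B'), integral_const_mul] at h4
    have h6 : ∫ z in S1 C, W i z ∂C.nu < ε * VV C / 4 := hi2
    have h7 : B' * ∫ z in S1 C, |C.berg (D i) (s i) z - 1| ∂C.nu ≤ B' * δ :=
      mul_le_mul_of_nonneg_left hbδ hB'0.le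
    linarith
  have h8 : VV C / 2 ≤ I1 C (C.berg (D i) (s i)) := by
    have h9 : ∫ _ in S1 C, (1 : ℝ) ∂C.nu ≤
        ∫ z in S1 C, (C.berg (D i) (s i) z + |C.berg (D i) (s i) z - 1|) ∂C.nu := by
      refine integral_mono hconst (hint.add habs) fun z => ?_
      have := neg_abs_le (C.berg (D i) (s i) z - 1)
      simp only
      linarith
    rw [integral_add hint habs] at h9
    have h10 := I1_const hC hV (1 : ℝ)
    unfold I1 at h10 ⊢
    rw [h10] at h9
    linarith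
  have h11 : I1 C (fun z => W i z * C.berg (D i) (s i) z) ≤ ε * I1 C (C.berg (D i) (s i)) := by
    refine h3.trans ?_
    calc ε * VV C / 2 = ε * (VV C / 2) := by ring
      _ ≤ _ := mul_le_mul_of_nonneg_left h8 hε.le
  have hK := KK_nonneg (C := C) (D i)
  unfold KK at hK
  calc _ ≤ KD C (D i) * C.m * (2 * D i + C.m - 1).factorial *
        (ε * I1 C (C.berg (D i) (s i))) := mul_le_mul_of_nonneg_left h11 hK
    _ = _ := by ring

end

theorem hEFI : StERD → StETM → StEPO → StEWT → StBER → StVOL → StEFI := by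
  intro hERD hETM hEPO hEWT hBER hV C r Λ k N s lam hC hSQ t ht0 ht g B c hgm hgb hgh hg ε hε
  have hn : 0 < C.n := hC.hn
  have hr := hSQ.hr
  have hnr : (0 : ℝ) < 2 * (C.n * r) := by
    have h1 : (0 : ℝ) < C.n := by exact_mod_cast hn
    have h2 : (0 : ℝ) < r := by exact_mod_cast hr
    positivity
  have hΛ : (0 : ℝ) < Λ := by exact_mod_cast hSQ.hΛ
  have hk : ∀ i, (0 : ℝ) < k i := fun i => by exact_mod_cast hSQ.kpos i
  have hk1 : ∀ i, (1 : ℝ) ≤ k i := fun i => by exact_mod_cast hSQ.kpos i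
  have hL : ∀ i, (0 : ℝ) < Λ * k i := fun i => mul_pos hΛ (hk i)
  have hD0 : ∀ i, 0 < C.n * r * k i := fun i => Nat.mul_pos (Nat.mul_pos hn hr) (hSQ.kpos i)
  have hDt : Tendsto (fun i => C.n * r * k i) atTop atTop :=
    tendsto_atTop_mono (fun i => Nat.le_mul_of_pos_left _ (Nat.mul_pos hn hr)) hSQ.klim
  have hkr : Tendsto (fun i => (k i : ℝ)) atTop atTop := tendsto_natCast_atTop_atTop.comp hSQ.klim
  have hD2 : ∀ i, 2 * ((C.n * r * k i : ℕ) : ℝ) = 2 * (C.n * r) * k i := fun i => by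
    push_cast; ring
  have hpo : ∀ i, ∀ z ∈ C.U, ∀ τ : ℝ, 0 ≤ τ → _ := fun i z hz τ hτ =>
    hEPO C hC (C.n * r * k i) (N i) (hD0 i) (s i) (lam i) (hSQ.onb i).span (Λ * k i) (hL i)
      (fun j => by exact_mod_cast hSQ.bd i j) z hz τ hτ
  -- the limit function
  set v : (Fin C.m → ℂ) → ℝ := fun z => g z / ut C z with hv
  have hvU : ∀ z ∈ C.U, v z = g z / C.u z := fun z hz => by rw [hv]; simp only; rw [ut_eq hz]
  have hvm : Measurable v := hgm.div (meas_ut hC)
  have hB0 : ∀ z ∈ C.U, 0 ≤ v z ∧ v z ≤ B := fun z hz => by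
    have h1 := u_pos hC hz
    rw [hvU z hz]
    exact ⟨div_nonneg (hgb z hz).1 h1.le, (div_le_iff₀ h1).2 (hgb z hz).2⟩
  have hvh : ∀ z ∈ C.U, ∀ c : ℂ, c ≠ 0 → v (scl C.w c z) = v z := fun z hz c hc => by
    have h1 := u_pos hC hz
    have h2 : (0 : ℝ) < ‖c‖ := norm_pos_iff.2 hc
    rw [hvU z hz, hvU _ (hC.sclU c hc z hz), hgh z hz c hc, hC.uhom z hz c hc]
    field_simp
  -- the approximants
  set vt : ℕ → (Fin C.m → ℂ) → ℝ := fun i z =>
    F1 (s i) (lam i) (t i) z / (2 * (C.n * r * k i : ℕ)) with hvt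
  set v0 : ℕ → (Fin C.m → ℂ) → ℝ := fun i z =>
    F1 (s i) (lam i) 0 z / (2 * (C.n * r * k i : ℕ)) with hv0
  set M0 : ℝ := Λ / (2 * (C.n * r)) with hM0
  have hM00 : 0 < M0 := div_pos hΛ hnr
  have hbdF : ∀ i, ∀ z ∈ C.U, ∀ τ : ℝ, 0 ≤ τ →
      0 ≤ F1 (s i) (lam i) τ z / (2 * (C.n * r * k i : ℕ)) ∧
      F1 (s i) (lam i) τ z / (2 * (C.n * r * k i : ℕ)) ≤ M0 := by
    intro i z hz τ hτ
    obtain ⟨-, -, -, h1, h2, -⟩ := hpo i z hz τ hτ
    rw [hD2 i]
    have h3 : 0 < 2 * (C.n * r : ℝ) * k i := mul_pos hnr (hk i)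
    refine ⟨div_nonneg h1 h3.le, ?_⟩
    rw [hM0, div_le_div_iff₀ h3 hnr]
    calc F1 (s i) (lam i) τ z * (2 * (C.n * r)) ≤ (Λ * k i) * (2 * (C.n * r)) :=
          mul_le_mul_of_nonneg_right h2 hnr.le
      _ = _ := by ring
  have hdiff : ∀ i z, vt i z - v0 i z =
      (1 / (2 * (C.n * r))) * ((F1 (s i) (lam i) (t i) z - F1 (s i) (lam i) 0 z) / k i) := by
    intro i z
    rw [hvt, hv0]
    simp only
    rw [hD2 i]
    have := (hk i).ne'
    have := hnr.ne'
    field_simp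
  have hdiff0 : ∀ i, ∀ z ∈ C.U, 0 ≤ vt i z - v0 i z := by
    intro i z hz
    rw [hdiff]
    obtain ⟨-, -, -, -, -, -, -, h1, -⟩ := hpo i z hz (t i) (ht0 i)
    have h2 : 0 ≤ F1 (s i) (lam i) (t i) z - F1 (s i) (lam i) 0 z := by linarith
    have h3 := (hk i).le
    exact mul_nonneg (by positivity) (div_nonneg h2 h3)
  have hvtm : ∀ i, Measurable (vt i) := fun i => (meas_F1 _ _ _).div_const _
  have hv0m : ∀ i, Measurable (v0 i) := fun i => (meas_F1 _ _ _).div_const _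
  -- almost everywhere convergence
  have hae : ∀ᵐ z ∂C.nu.restrict (S1 C), Tendsto (fun i => vt i z) atTop (𝓝 (v z)) := by
    obtain ⟨-, h1, -⟩ := hEWT C r Λ k N s lam hC hSQ t ht0 ht
    have h2 : ∀ᵐ z ∂volume.restrict C.U, Tendsto (fun i => vt i z) atTop (𝓝 (v z)) := by
      filter_upwards [h1, hg, ae_restrict_mem open_U.measurableSet] with z h3 h4 hz
      have hu := u_pos hC hz
      have h5 := h4.div h3.2 hu.ne'
      rw [hvU z hz]
      refine h5.congr' ?_
      filter_upwards [h3.2.eventually (lt_mem_nhds hu)] with i hi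
      exact mul_div_cancel_left₀ _ hi.ne'
    rw [ae_restrict_iff' open_U.measurableSet] at h2
    rw [ae_restrict_iff' (meas_S1 hC)]
    have h6 : ∀ᵐ z ∂C.nu, z ∈ C.U → Tendsto (fun i => vt i z) atTop (𝓝 (v z)) :=
      (withDensity_absolutelyContinuous _ _).ae_le h2
    filter_upwards [h6] with z hz hz1
    exact hz hz1.1
  set M : ℝ := M0 + B with hM
  have hMv : ∀ i, ∀ z ∈ C.U, |vt i z - v z| ≤ M := by
    intro i z hz
    have h1 := hbdF i z hz (t i) (ht0 i)
    have h2 := hB0 z hz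
    have h3 : 0 ≤ vt i z ∧ vt i z ≤ M0 := h1
    rw [abs_le]
    constructor <;> linarith [h3.1, h3.2, h2.1, h2.2]
  have hM0v : ∀ i, ∀ z ∈ C.U, |v0 i z - v z| ≤ M := by
    intro i z hz
    have h1 := hbdF i z hz 0 le_rfl
    have h2 := hB0 z hz
    have h3 : 0 ≤ v0 i z ∧ v0 i z ≤ M0 := h1
    rw [abs_le]
    constructor <;> linarith [h3.1, h3.2, h2.1, h2.2]
  have hL1 : Tendsto (fun i => I1 C (fun z => |vt i z - v z|)) atTop (𝓝 0) := by
    have h1 : Tendsto (fun i => ∫ z in S1 C, |vt i z - v z| ∂C.nu) atTop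
        (𝓝 (∫ _ in S1 C, (0 : ℝ) ∂C.nu)) := by
      refine tendsto_integral_of_dominated_convergence (fun _ => M) ?_ ?_ ?_ ?_
      · exact fun i => (((hvtm i).sub hvm).abs).aestronglyMeasurable
      · exact int_bd hC hV measurable_const |M| fun z _ => le_rfl
      · exact fun i => aeS1 hC fun z hz => by
          rw [Real.norm_eq_abs, abs_abs]; exact hMv i z hz
      · filter_upwards [hae] with z hz
        have h2 := (hz.sub_const (v z)).abs
        simpa using h2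
    simpa [I1] using h1
  -- the test functions
  set A : ℝ := 3 * (2 * (C.n * r)) ^ 2 with hA
  have hA0 : 0 ≤ A := by positivity
  set W : ℕ → (Fin C.m → ℂ) → ℝ := fun i z => F2 (s i) (lam i) 0 z / (k i : ℝ) ^ 2 +
    A * (v0 i z - v z) ^ 2 + 3 * c ^ 2 / (k i : ℝ) ^ 2 with hW
  have hWm : ∀ i, Measurable (W i) := fun i =>
    (((meas_F2 _ _ _).div_const _).add ((((hv0m i).sub hvm).pow_const 2).const_mul _)).add_const _
  have hF2b : ∀ i, ∀ z ∈ C.U, 0 ≤ F2 (s i) (lam i) 0 z / (k i : ℝ) ^ 2 ∧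
      F2 (s i) (lam i) 0 z / (k i : ℝ) ^ 2 ≤ (Λ : ℝ) ^ 2 := by
    intro i z hz
    obtain ⟨-, -, -, -, -, h1, h2, -⟩ := hpo i z hz 0 le_rfl
    have h3 : (0 : ℝ) < (k i : ℝ) ^ 2 := pow_pos (hk i) 2
    refine ⟨div_nonneg h1 h3.le, ?_⟩
    rw [div_le_iff₀ h3]
    calc F2 (s i) (lam i) 0 z ≤ (Λ * k i) ^ 2 := h2
      _ = _ := by ring
  have hsqM : ∀ i, ∀ z ∈ C.U, (v0 i z - v z) ^ 2 ≤ M ^ 2 := fun i z hz => by
    rw [← sq_abs (v0 i z - v z)]
    exact pow_le_pow_left₀ (abs_nonneg _) (hM0v i z hz) 2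
  have hck : ∀ i, 0 ≤ 3 * c ^ 2 / (k i : ℝ) ^ 2 ∧ 3 * c ^ 2 / (k i : ℝ) ^ 2 ≤ 3 * c ^ 2 := by
    intro i
    refine ⟨by positivity, div_le_self (by positivity) (one_le_pow₀ (hk1 i))⟩
  have hWb : ∀ i, ∀ z ∈ C.U, 0 ≤ W i z ∧ W i z ≤ (Λ : ℝ) ^ 2 + A * M ^ 2 + 3 * c ^ 2 := by
    intro i z hz
    have h1 := hF2b i z hz
    have h2 := hck i
    have h3 : 0 ≤ A * (v0 i z - v z) ^ 2 := by positivity
    have h4 : A * (v0 i z - v z) ^ 2 ≤ A * M ^ 2 :=
      mul_le_mul_of_nonneg_left (hsqM i z hz) hA0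
    rw [hW]
    simp only
    exact ⟨by linarith [h1.1, h2.1], by linarith [h1.2, h2.2]⟩
  have hF1h : ∀ i, ∀ z ∈ C.U, ∀ c : ℂ, c ≠ 0 →
      F1 (s i) (lam i) 0 (scl C.w c z) = F1 (s i) (lam i) 0 z ∧
      F2 (s i) (lam i) 0 (scl C.w c z) = F2 (s i) (lam i) 0 z := by
    intro i z hz c hc
    obtain ⟨-, -, -, -, -, -, -, -, -, h1⟩ := hpo i z hz 0 le_rfl
    exact (h1 c hc).2
  have hW0 : ∀ i, ∀ z ∈ C.U, ∀ c : ℂ, c ≠ 0 → W i (scl C.w c z) = W i z := by
    intro i z hz c' hc'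
    obtain ⟨h1, h2⟩ := hF1h i z hz c' hc'
    have h3 : v0 i (scl C.w c' z) = v0 i z := by
      rw [hv0]; simp only; rw [h1]
    rw [hW]
    simp only
    rw [h2, h3, hvh z hz c' hc']
  -- the average of `W` tends to zero
  have ht1 : Tendsto (fun i => I1 C (fun z =>
      (F1 (s i) (lam i) (1 / (Λ * k i)) z - F1 (s i) (lam i) 0 z) / k i)) atTop (𝓝 0) := by
    refine hETM C r Λ k N s lam hC hSQ (fun i => 1 / (Λ * k i)) (fun i => ?_) ?_
    · have := hL i
      positivity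
    · have h1 : Tendsto (fun i => (Λ : ℝ) * k i) atTop atTop := hkr.const_mul_atTop hΛ
      exact h1.inv_tendsto_atTop.congr fun i => (one_div _).symm
  have ht2 := hETM C r Λ k N s lam hC hSQ t ht0 ht
  have hiF : ∀ i, ∀ τ : ℝ, 0 ≤ τ → Integrable (fun z =>
      (F1 (s i) (lam i) τ z - F1 (s i) (lam i) 0 z) / k i) (C.nu.restrict (S1 C)) := by
    intro i τ hτ
    refine int_bd hC hV (((meas_F1 _ _ _).sub (meas_F1 _ _ _)).div_const _) Λ fun z hz => ?_
    obtain ⟨-, -, -, h1, h2, -, -, h5, -⟩ := hpo i z hz τ hτ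
    obtain ⟨-, -, -, h3, h4, -⟩ := hpo i z hz 0 le_rfl
    rw [abs_div, abs_of_pos (hk i), div_le_iff₀ (hk i), abs_le]
    constructor <;> linarith
  have hWlim : Tendsto (fun i => I1 C (W i)) atTop (𝓝 0) := by
    have hB00 : 0 ≤ M := by
      by_contra hcon
      -- `M < 0` is impossible on a nonempty set
      have hne : C.U.Nonempty := by
        by_contra hem
        rw [Set.not_nonempty_iff_eq_empty] at hem
        have h1 := nu_S1 hC hV
        have h2 : S1 C = ∅ := by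
          ext z
          simp [S1, hem]
        rw [h2, measure_empty] at h1
        exact (ENNReal.ofReal_pos.2 (VV_pos hC)).ne h1
      obtain ⟨z, hz⟩ := hne
      have := hMv 0 z hz
      have := abs_nonneg (vt 0 z - v z)
      linarith
    have hiv : ∀ i, Integrable (fun z => |vt i z - v z|) (C.nu.restrict (S1 C)) := fun i =>
      int_bd hC hV ((hvtm i).sub hvm).abs M fun z hz => by rw [abs_abs]; exact hMv i z hz
    have hup : ∀ i, I1 C (W i) ≤ Real.exp 2 * Λ * I1 C (fun z =>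
        (F1 (s i) (lam i) (1 / (Λ * k i)) z - F1 (s i) (lam i) 0 z) / k i) +
        A * M * (I1 C (fun z => |vt i z - v z|) + (1 / (2 * (C.n * r))) * I1 C (fun z =>
          (F1 (s i) (lam i) (t i) z - F1 (s i) (lam i) 0 z) / k i)) +
        3 * c ^ 2 / (k i : ℝ) ^ 2 * VV C := by
      intro i
      have hp : (0 : ℝ) ≤ 1 / (Λ * k i) := by have := hL i; positivity
      have hcc := I1_const hC hV (3 * c ^ 2 / (k i : ℝ) ^ 2)
      have hic : Integrable (fun _ : Fin C.m → ℂ => 3 * c ^ 2 / (k i : ℝ) ^ 2)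
          (C.nu.restrict (S1 C)) := int_bd hC hV measurable_const _ fun z _ => le_rfl
      have j1 : Integrable (fun z => Real.exp 2 * Λ *
          ((F1 (s i) (lam i) (1 / (Λ * k i)) z - F1 (s i) (lam i) 0 z) / k i))
          (C.nu.restrict (S1 C)) := (hiF i _ hp).const_mul _
      have j3 : Integrable (fun z => (1 / (2 * (C.n * r : ℝ))) *
          ((F1 (s i) (lam i) (t i) z - F1 (s i) (lam i) 0 z) / k i))
          (C.nu.restrict (S1 C)) := (hiF i (t i) (ht0 i)).const_mul _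
      have j4 : Integrable (fun z => |vt i z - v z| + (1 / (2 * (C.n * r : ℝ))) *
          ((F1 (s i) (lam i) (t i) z - F1 (s i) (lam i) 0 z) / k i))
          (C.nu.restrict (S1 C)) := (hiv i).add j3
      have j2 : Integrable (fun z => A * M * (|vt i z - v z| + (1 / (2 * (C.n * r : ℝ))) *
          ((F1 (s i) (lam i) (t i) z - F1 (s i) (lam i) 0 z) / k i)))
          (C.nu.restrict (S1 C)) := j4.const_mul _
      have j5 : Integrable (fun z => Real.exp 2 * Λ *
          ((F1 (s i) (lam i) (1 / (Λ * k i)) z - F1 (s i) (lam i) 0 z) / k i) +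
          A * M * (|vt i z - v z| + (1 / (2 * (C.n * r : ℝ))) *
          ((F1 (s i) (lam i) (t i) z - F1 (s i) (lam i) 0 z) / k i)))
          (C.nu.restrict (S1 C)) := j1.add j2
      have j6 : Integrable (fun z => Real.exp 2 * Λ *
          ((F1 (s i) (lam i) (1 / (Λ * k i)) z - F1 (s i) (lam i) 0 z) / k i) +
          A * M * (|vt i z - v z| + (1 / (2 * (C.n * r : ℝ))) *
          ((F1 (s i) (lam i) (t i) z - F1 (s i) (lam i) 0 z) / k i)) +
          3 * c ^ 2 / (k i : ℝ) ^ 2) (C.nu.restrict (S1 C)) := j5.add hic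
      unfold I1 at hcc ⊢
      have k1 := integral_const_mul (μ := C.nu.restrict (S1 C)) (Real.exp 2 * Λ)
        (fun z => (F1 (s i) (lam i) (1 / (Λ * k i)) z - F1 (s i) (lam i) 0 z) / k i)
      have k2 := integral_const_mul (μ := C.nu.restrict (S1 C)) (1 / (2 * (C.n * r : ℝ)))
        (fun z => (F1 (s i) (lam i) (t i) z - F1 (s i) (lam i) 0 z) / k i)
      have k3 := integral_add (hiv i) j3
      have k4 := integral_const_mul (μ := C.nu.restrict (S1 C)) (A * M)
        (fun z => |vt i z - v z| + (1 / (2 * (C.n * r : ℝ))) *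
          ((F1 (s i) (lam i) (t i) z - F1 (s i) (lam i) 0 z) / k i))
      have k5 := integral_add j1 j2
      have k6 := integral_add j5 hic
      rw [← hcc, ← k1, ← k2, ← k3, ← k4, ← k5, ← k6]
      refine integral_mono_of_nonneg (aeS1 hC fun z hz => (hWb i z hz).1) j6
        (aeS1 hC fun z hz => ?_)
      simp only [hW]
      have h1 : F2 (s i) (lam i) 0 z / (k i : ℝ) ^ 2 ≤ Real.exp 2 * Λ *
          ((F1 (s i) (lam i) (1 / (Λ * k i)) z - F1 (s i) (lam i) 0 z) / k i) := by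
        obtain ⟨-, -, -, -, -, -, -, -, h2, -⟩ := hpo i z hz 0 le_rfl
        have h3 : (0 : ℝ) < (k i : ℝ) ^ 2 := pow_pos (hk i) 2
        rw [div_le_iff₀ h3]
        refine h2.trans (le_of_eq ?_)
        have := (hk i).ne'
        field_simp
      have h4 : (v0 i z - v z) ^ 2 ≤ M * (|vt i z - v z| + (1 / (2 * (C.n * r))) *
          ((F1 (s i) (lam i) (t i) z - F1 (s i) (lam i) 0 z) / k i)) := by
        rw [← hdiff i z]
        have h5 := hdiff0 i z hz
        have h6 : |v0 i z - v z| ≤ |vt i z - v z| + (vt i z - v0 i z) := by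
          have h7 : v0 i z - v z = (vt i z - v z) - (vt i z - v0 i z) := by ring
          rw [h7]
          refine (abs_sub _ _).trans ?_
          rw [abs_of_nonneg h5]
        calc (v0 i z - v z) ^ 2 = |v0 i z - v z| * |v0 i z - v z| := by
              rw [← sq_abs, pow_two]
          _ ≤ M * (|vt i z - v z| + (vt i z - v0 i z)) :=
              mul_le_mul (hM0v i z hz) h6 (abs_nonneg _) hB00
      have h8 : A * (v0 i z - v z) ^ 2 ≤ A * M * (|vt i z - v z| + (1 / (2 * (C.n * r))) *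
          ((F1 (s i) (lam i) (t i) z - F1 (s i) (lam i) 0 z) / k i)) := by
        rw [mul_assoc A M]
        exact mul_le_mul_of_nonneg_left h4 hA0
      linarith
    have hlo : ∀ i, 0 ≤ I1 C (W i) := fun i => by
      unfold I1
      exact integral_nonneg_of_ae (aeS1 hC fun z hz => (hWb i z hz).1)
    refine squeeze_zero hlo hup ?_
    have hc2 : Tendsto (fun i => 3 * c ^ 2 / (k i : ℝ) ^ 2 * VV C) atTop (𝓝 0) := by
      have h1 : Tendsto (fun i => ((k i : ℝ) ^ 2)) atTop atTop :=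
        (tendsto_pow_atTop two_ne_zero).comp hkr
      have h2 := (h1.const_div_atTop (3 * c ^ 2)).mul_const (VV C)
      simpa using h2
    have h3 := ((ht1.const_mul (Real.exp 2 * Λ)).add
      ((hL1.add (ht2.const_mul (1 / (2 * (C.n * r : ℝ))))).const_mul (A * M))).add hc2
    simpa using h3
  -- the main term
  have hmain := small_int hC hV hERD hBER hD0 hDt (lam := lam) hSQ.onb W _ hWm hWb hW0 hWlim
    (half_pos hε)
  -- the second term
  have hsec : ∀ᶠ i in atTop, 3 * B ^ 2 *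
      (2 * ((C.n * r * k i : ℕ) : ℝ) + C.m + C.m ^ 2) ≤ ε / 2 * (k i : ℝ) ^ 2 := by
    set q : ℝ := 3 * B ^ 2 * (2 * (C.n * r) + C.m + C.m ^ 2) with hq
    have h1 : ∀ᶠ i in atTop, q / (ε / 2) ≤ (k i : ℝ) := hkr.eventually_ge_atTop _
    filter_upwards [h1] with i hi
    rw [div_le_iff₀ (by positivity)] at hi
    have h2 : 2 * ((C.n * r * k i : ℕ) : ℝ) + C.m + C.m ^ 2 ≤
        (2 * (C.n * r) + C.m + C.m ^ 2) * k i := by
      rw [hD2]
      have h3 : (C.m : ℝ) ≤ C.m * k i := le_mul_of_one_le_right (by positivity) (hk1 i)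
      have h4 : (C.m : ℝ) ^ 2 ≤ C.m ^ 2 * k i := le_mul_of_one_le_right (by positivity) (hk1 i)
      linarith
    calc 3 * B ^ 2 * (2 * ((C.n * r * k i : ℕ) : ℝ) + C.m + C.m ^ 2)
        ≤ 3 * B ^ 2 * ((2 * (C.n * r) + C.m + C.m ^ 2) * k i) :=
          mul_le_mul_of_nonneg_left h2 (by positivity)
      _ = q * k i := by rw [hq]; ring
      _ ≤ (k i * (ε / 2)) * k i := mul_le_mul_of_nonneg_right hi (hk i).le
      _ = ε / 2 * (k i : ℝ) ^ 2 := by ring
  filter_upwards [hmain, hsec] with i hi1 hi2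
  obtain ⟨e1, e2, e3⟩ := hERD C hC (C.n * r * k i) (N i) (hD0 i) (s i) (lam i) (hSQ.onb i)
  obtain ⟨w1, w2, -⟩ := e3 (W i) ((Λ : ℝ) ^ 2 + A * M ^ 2 + 3 * c ^ 2) (hWm i) (fun z hz => by
    rw [abs_of_nonneg (hWb i z hz).1]; exact (hWb i z hz).2) (hW0 i)
  have hv2b : ∀ z ∈ C.U, 0 ≤ 3 * v z ^ 2 ∧ 3 * v z ^ 2 ≤ 3 * B ^ 2 := fun z hz => by
    have h1 := hB0 z hz
    exact ⟨by positivity, by nlinarith [h1.1, h1.2]⟩
  obtain ⟨x1, -, x3⟩ := e3 (fun z => 3 * v z ^ 2) (3 * B ^ 2) ((hvm.pow_const 2).const_mul 3)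
    (fun z hz => by rw [abs_of_nonneg (hv2b z hz).1]; exact (hv2b z hz).2)
    (fun z hz c hc => by
      show 3 * v (scl C.w c z) ^ 2 = 3 * v z ^ 2
      rw [hvh z hz c hc])
  set D : ℕ := C.n * r * k i with hD
  have hPP : ∀ z, 0 ≤ PP (s i) (lam i) 0 z := fun z => by
    unfold PP
    positivity
  -- integrability
  have hexpm : AEStronglyMeasurable (fun z => Real.exp (-C.u z)) (volume.restrict C.U) :=
    (Real.continuous_exp.comp_continuousOn hC.usm.continuousOn.neg).aestronglyMeasurable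
      open_U.measurableSet
  have hum : AEStronglyMeasurable (fun z => (C.u z - 2 * D) ^ 2) (volume.restrict C.U) :=
    ((hC.usm.continuousOn.sub continuousOn_const).pow 2).aestronglyMeasurable
      open_U.measurableSet
  have hJm : AEStronglyMeasurable (fun z => ‖ev C.J z‖ ^ 2) (volume.restrict C.U) :=
    (meas_ev C.J).aestronglyMeasurable
  have hi3 : IntegrableOn (fun z => PP (s i) (lam i) 0 z * W i z * Real.exp (-C.u z) *
      ‖ev C.J z‖ ^ 2) C.U := by
    refine Integrable.mono' w1 (((((meas_PP _ _ _).mul (hWm i)).aestronglyMeasurable).mul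
      hexpm).mul hJm) ((ae_restrict_iff' open_U.measurableSet).2 (Eventually.of_forall
        fun z hz => ?_))
    have h1 := (hWb i z hz).1
    have h2 := hPP z
    rw [Real.norm_eq_abs, abs_of_nonneg (by positivity)]
    have h3 : 0 ≤ PP (s i) (lam i) 0 z * W i z * Real.exp (-C.u z) * ‖ev C.J z‖ ^ 2 := by
      positivity
    have h4 : PP (s i) (lam i) 0 z * W i z * (1 + C.u z ^ 2) * Real.exp (-C.u z) *
        ‖ev C.J z‖ ^ 2 = (1 + C.u z ^ 2) * (PP (s i) (lam i) 0 z * W i z *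
          Real.exp (-C.u z) * ‖ev C.J z‖ ^ 2) := by ring
    rw [h4]
    exact le_mul_of_one_le_left h3 (by linarith [sq_nonneg (C.u z)])
  have hi4 : IntegrableOn (fun z => PP (s i) (lam i) 0 z * (3 * v z ^ 2) * (C.u z - 2 * D) ^ 2 *
      Real.exp (-C.u z) * ‖ev C.J z‖ ^ 2) C.U := by
    refine Integrable.mono' (x1.const_mul (2 + 2 * (2 * D : ℝ) ^ 2))
      ((((((meas_PP _ _ _).mul ((hvm.pow_const 2).const_mul 3)).aestronglyMeasurable).mul
      hum).mul hexpm).mul hJm) ((ae_restrict_iff' open_U.measurableSet).2 (Eventually.of_forall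
        fun z hz => ?_))
    have h2 := hPP z
    rw [Real.norm_eq_abs, abs_of_nonneg (by positivity)]
    have h3 : 0 ≤ PP (s i) (lam i) 0 z * (3 * v z ^ 2) * Real.exp (-C.u z) *
        ‖ev C.J z‖ ^ 2 := by positivity
    have h5 : (C.u z - 2 * D) ^ 2 ≤ (2 + 2 * (2 * D : ℝ) ^ 2) * (1 + C.u z ^ 2) := by
      nlinarith [sq_nonneg (C.u z + 2 * D), sq_nonneg (C.u z), sq_nonneg ((2 * D : ℝ) * C.u z),
        sq_nonneg (2 * D : ℝ)]
    calc PP (s i) (lam i) 0 z * (3 * v z ^ 2) * (C.u z - 2 * D) ^ 2 * Real.exp (-C.u z) *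
          ‖ev C.J z‖ ^ 2 = (C.u z - 2 * D) ^ 2 * (PP (s i) (lam i) 0 z * (3 * v z ^ 2) *
            Real.exp (-C.u z) * ‖ev C.J z‖ ^ 2) := by ring
      _ ≤ ((2 + 2 * (2 * D : ℝ) ^ 2) * (1 + C.u z ^ 2)) * (PP (s i) (lam i) 0 z *
            (3 * v z ^ 2) * Real.exp (-C.u z) * ‖ev C.J z‖ ^ 2) :=
          mul_le_mul_of_nonneg_right h5 h3
      _ = _ := by ring
  have hle : ∫ z in C.U, PP (s i) (lam i) 0 z *
      (F2 (s i) (lam i) 0 z + (F1 (s i) (lam i) 0 z - (g z - c)) ^ 2) *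
      Real.exp (-C.u z) * ‖ev C.J z‖ ^ 2 ≤
      ∫ z in C.U, ((k i : ℝ) ^ 2 * (PP (s i) (lam i) 0 z * W i z * Real.exp (-C.u z) *
      ‖ev C.J z‖ ^ 2) + PP (s i) (lam i) 0 z * (3 * v z ^ 2) * (C.u z - 2 * D) ^ 2 *
      Real.exp (-C.u z) * ‖ev C.J z‖ ^ 2) := by
    refine integral_mono_of_nonneg ((ae_restrict_iff' open_U.measurableSet).2
      (Eventually.of_forall fun z hz => ?_)) ((hi3.const_mul _).add hi4)
      ((ae_restrict_iff' open_U.measurableSet).2 (Eventually.of_forall fun z hz => ?_))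
    · obtain ⟨-, -, -, -, -, h1, -⟩ := hpo i z hz 0 le_rfl
      have h2 := hPP z
      simp only [Pi.zero_apply]
      positivity
    · have h2 := hPP z
      have hu := u_pos hC hz
      have hk2 := (hk i).ne'
      have h5 : (k i : ℝ) ^ 2 * W i z = F2 (s i) (lam i) 0 z +
          3 * (2 * D : ℝ) ^ 2 * (v0 i z - v z) ^ 2 + 3 * c ^ 2 := by
        have hD2' : 2 * (D : ℝ) = 2 * (C.n * r) * k i := hD2 i
        have q1 : (k i : ℝ) ^ 2 * (F2 (s i) (lam i) 0 z / (k i : ℝ) ^ 2) =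
            F2 (s i) (lam i) 0 z := by field_simp
        have q2 : (k i : ℝ) ^ 2 * (3 * c ^ 2 / (k i : ℝ) ^ 2) = 3 * c ^ 2 := by field_simp
        have q3 : W i z = F2 (s i) (lam i) 0 z / (k i : ℝ) ^ 2 +
          A * (v0 i z - v z) ^ 2 + 3 * c ^ 2 / (k i : ℝ) ^ 2 := rfl
        rw [q3, hD2', hA]
        linear_combination q1 + q2
      have h6 : F1 (s i) (lam i) 0 z = 2 * D * v0 i z := by
        have q1 : (2 * (D : ℝ)) ≠ 0 := by
          have : (0 : ℝ) < D := by exact_mod_cast hD0 i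
          positivity
        have q2 : v0 i z = F1 (s i) (lam i) 0 z / (2 * (D : ℝ)) := rfl
        rw [q2, mul_comm, div_mul_cancel₀ _ q1]
      have h7 : g z = C.u z * v z := by
        rw [hvU z hz]
        field_simp
      have h8 : (F1 (s i) (lam i) 0 z - (g z - c)) ^ 2 ≤
          3 * (2 * D : ℝ) ^ 2 * (v0 i z - v z) ^ 2 + 3 * c ^ 2 +
            3 * v z ^ 2 * (C.u z - 2 * D) ^ 2 := by
        rw [h6, h7]
        have h9 : 2 * D * v0 i z - (C.u z * v z - c) =
            2 * D * (v0 i z - v z) + (2 * D - C.u z) * v z + c := by ring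
        rw [h9]
        nlinarith [sq_nonneg (2 * D * (v0 i z - v z) - (2 * D - C.u z) * v z),
          sq_nonneg (2 * D * (v0 i z - v z) - c), sq_nonneg ((2 * D - C.u z) * v z - c)]
      have h10 : 0 ≤ PP (s i) (lam i) 0 z * Real.exp (-C.u z) * ‖ev C.J z‖ ^ 2 := by positivity
      calc PP (s i) (lam i) 0 z * (F2 (s i) (lam i) 0 z +
            (F1 (s i) (lam i) 0 z - (g z - c)) ^ 2) * Real.exp (-C.u z) * ‖ev C.J z‖ ^ 2
          = (F2 (s i) (lam i) 0 z + (F1 (s i) (lam i) 0 z - (g z - c)) ^ 2) *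
            (PP (s i) (lam i) 0 z * Real.exp (-C.u z) * ‖ev C.J z‖ ^ 2) := by ring
        _ ≤ ((k i : ℝ) ^ 2 * W i z + 3 * v z ^ 2 * (C.u z - 2 * D) ^ 2) *
            (PP (s i) (lam i) 0 z * Real.exp (-C.u z) * ‖ev C.J z‖ ^ 2) :=
            mul_le_mul_of_nonneg_right (by rw [h5]; linarith) h10
        _ = _ := by ring
  refine hle.trans ?_
  rw [integral_add (hi3.const_mul _) hi4, integral_const_mul, x3]
  have hberg : I1 C (fun z => 3 * v z ^ 2 * C.berg D (s i) z) ≤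
      3 * B ^ 2 * I1 C (C.berg D (s i)) := by
    unfold I1
    rw [← integral_const_mul]
    refine integral_mono_of_nonneg (aeS1 hC fun z hz => ?_)
      (Integrable.const_mul e1 (3 * B ^ 2)) (aeS1 hC fun z hz => ?_)
    · exact mul_nonneg (hv2b z hz).1 (berg_nonneg _ _ _)
    · exact mul_le_mul_of_nonneg_right (hv2b z hz).2 (berg_nonneg _ _ _)
  have hK := KK_nonneg (C := C) D
  unfold KK at hK
  have h1 : KD C D * C.m * (2 * D + C.m - 1).factorial *
      I1 C (fun z => 3 * v z ^ 2 * C.berg D (s i) z) ≤ 3 * B ^ 2 * N i := by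
    rw [e2]
    calc _ ≤ KD C D * C.m * (2 * D + C.m - 1).factorial *
          (3 * B ^ 2 * I1 C (C.berg D (s i))) := mul_le_mul_of_nonneg_left hberg hK
      _ = _ := by ring
  have h2 : (2 * (D : ℝ) + C.m + C.m ^ 2) * (KD C D * C.m * (2 * D + C.m - 1).factorial *
      I1 C (fun z => 3 * v z ^ 2 * C.berg D (s i) z)) ≤ ε / 2 * (k i : ℝ) ^ 2 * N i := by
    calc _ ≤ (2 * (D : ℝ) + C.m + C.m ^ 2) * (3 * B ^ 2 * N i) :=
          mul_le_mul_of_nonneg_left h1 (by positivity)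
      _ = (3 * B ^ 2 * (2 * (D : ℝ) + C.m + C.m ^ 2)) * N i := by ring
      _ ≤ _ := mul_le_mul_of_nonneg_right hi2 (by positivity)
  have h3 : (k i : ℝ) ^ 2 * ∫ z in C.U, PP (s i) (lam i) 0 z * W i z * Real.exp (-C.u z) *
      ‖ev C.J z‖ ^ 2 ≤ (k i : ℝ) ^ 2 * (ε / 2 * N i) :=
    mul_le_mul_of_nonneg_left hi1 (by positivity)
  calc _ ≤ (k i : ℝ) ^ 2 * (ε / 2 * N i) + ε / 2 * (k i : ℝ) ^ 2 * N i := add_le_add h3 h2
    _ = ε * (k i : ℝ) ^ 2 * N i := by ring

end Pool.Agent.Helper7.KP
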